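import Mathlib

set_option autoImplicit false
open Filter Topology

namespace Pool.Agent.H.MP_8e46bf_ag

theorem cubic (b c d : ℂ) : ∃ x y z : ℂ, x + y + z = b ∧ x * y + x * z + y * z = c ∧ x * y * z = d := by
  obtain ⟨x, hx⟩ := Complex.exists_root (f := (⟨1, -b, c, -d⟩ : Cubic ℂ).toPoly)
    (by rw [Cubic.degree_of_a_ne_zero one_ne_zero]; norm_num)
  obtain ⟨y, hy⟩ := Complex.exists_root (f := (⟨0, 1, x - b, c + x * (x - b)⟩ : Cubic ℂ).toPoly)
    (by rw [Cubic.degree_of_b_ne_zero rfl one_ne_zero]; norm_num)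
  simp [Cubic.toPoly] at hx hy
  exact ⟨x, y, b - x - y, by ring, by linear_combination -hy, by linear_combination hx - x * hy⟩

section
variable {ι : Type} [Fintype ι] (n : ι → ℕ) (u : ι → ℝ → ℝ) (N : ℕ) (d : ℝ → ℝ)

theorem lim0 (hu : ∀ k, Continuous (u k)) (hd : Continuous d) (h0 : ∀ k x, 0 ≤ u k x)
    (h : ∀ x, 0 < x → x < 1 → ∑ k, x ^ n k * u k x = x ^ N * d x) (k : ι) (hk : n k < N) : u k 0 = 0 := by
  refine le_antisymm ?_ (h0 k 0)
  have a : Tendsto (fun x => x ^ (N - n k) * d x) (𝓝[>] 0) (𝓝 0) := by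
    have : Continuous fun x : ℝ => x ^ (N - n k) * d x := by fun_prop
    simpa [show N - n k ≠ 0 by omega] using (this.tendsto 0).mono_left nhdsWithin_le_nhds
  refine le_of_tendsto_of_tendsto (((hu k).tendsto 0).mono_left nhdsWithin_le_nhds) a ?_
  filter_upwards [Ioo_mem_nhdsGT one_pos] with x hx
  refine le_of_mul_le_mul_left ?_ (pow_pos hx.1 (n k))
  rw [← mul_assoc, ← pow_add, show n k + (N - n k) = N by omega, ← h x hx.1 hx.2]
  exact Finset.single_le_sum (f := fun k => x ^ n k * u k x)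
    (fun k _ => mul_nonneg (pow_pos hx.1 _).le (h0 k x)) (Finset.mem_univ k)

theorem lim1 (hu : ∀ k, Continuous (u k)) (hd : Continuous d) (hz : ∀ k, n k < N → ∀ x, u k x = 0)
    (h : ∀ x, 0 < x → x < 1 → ∑ k, x ^ n k * u k x = x ^ N * d x) :
    ∑ k, (if n k = N then u k 0 else 0) = d 0 := by
  have a : Continuous fun x : ℝ => ∑ k, x ^ (n k - N) * u k x := by fun_prop
  have := tendsto_nhds_unique_of_eventuallyEq ((a.tendsto 0).mono_left nhdsWithin_le_nhds)
    ((hd.tendsto 0).mono_left (nhdsWithin_le_nhds (s := Set.Ioi 0))) (by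
      filter_upwards [Ioo_mem_nhdsGT one_pos] with x hx
      refine mul_left_cancel₀ (pow_pos hx.1 N).ne' ?_
      rw [← h x hx.1 hx.2, Finset.mul_sum]
      refine Finset.sum_congr rfl fun k _ => ?_
      by_cases c : n k < N
      · simp [hz k c]
      · rw [← mul_assoc, ← pow_add, show N + (n k - N) = n k by omega])
  rw [← this]
  refine Finset.sum_congr rfl fun k _ => ?_
  split_ifs with c
  · simp [c]
  · by_cases c' : n k < N
    · simp [hz k c']
    · simp [show n k - N ≠ 0 by omega]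

theorem lim2 (g : ι → ℝ) (hg : ∀ k, 0 ≤ g k) (hu : ∀ k, Continuous (u k)) (hd : Continuous d)
    (h0 : ∀ k x, 0 ≤ u k x) (h1 : ∀ k, u k 0 = 1)
    (h : ∀ x, 0 < x → x < 1 → ∑ k, x ^ n k * (g k * u k x) = x ^ N * d x) :
    (∀ k, n k < N → g k = 0) ∧ ∑ k, (if n k = N then g k else 0) = d 0 := by
  have a : ∀ k, n k < N → g k = 0 := fun k hk => by
    simpa [h1] using lim0 n (fun k x => g k * u k x) N d (by fun_prop) hd
      (fun k x => mul_nonneg (hg k) (h0 k x)) h k hk
  exact ⟨a, by simpa [h1] using lim1 n (fun k x => g k * u k x) N d (by fun_prop) hd (by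
    intro k hk x; simp [a k hk]) h⟩

theorem fin (g : ι → ℝ) (p q : ι → ℕ) (hg : ∀ k, 0 ≤ g k)
    (h : ∀ t : ℝ, t ≠ 0 → t ≠ 1 → ∑ k, g k * t ^ (2 * p k) * (t - 1) ^ (2 * q k) =
      t ^ 6 * (t - 1) ^ 2 * (36 * t ^ 2 - 52 * t + 25)) : False := by
  have e : ∀ (x : ℝ) k, 0 ≤ x ^ (2 * k) := fun x k => by rw [pow_mul]; positivity
  obtain ⟨a1, a2⟩ := lim2 (fun k => 2 * p k) (fun k t => (t - 1) ^ (2 * q k)) 6
    (fun t => (t - 1) ^ 2 * (36 * t ^ 2 - 52 * t + 25)) g hg (by fun_prop) (by fun_prop) (fun _ _ => e _ _)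
    (by simp) fun x h1 h2 => by
      rw [← mul_assoc, ← h x h1.ne' h2.ne]
      exact Finset.sum_congr rfl fun k _ => by ring
  obtain ⟨b1, b2⟩ := lim2 (fun k => 2 * q k) (fun k t => (t + 1) ^ (2 * p k)) 2
    (fun t => (t + 1) ^ 6 * (36 * (t + 1) ^ 2 - 52 * (t + 1) + 25)) g hg (by fun_prop) (by fun_prop)
    (fun _ _ => e _ _) (by simp) fun x h1 h2 => by
      have := h (x + 1) (by positivity) (by linarith)
      rw [add_sub_cancel_right] at this
      rw [← mul_assoc, mul_comm (x ^ 2), ← this]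
      exact Finset.sum_congr rfl fun k _ => by ring
  obtain ⟨M, hM⟩ : ∃ M, ∀ k, p k + q k ≤ M :=
    ⟨_, fun k => Finset.single_le_sum (f := fun k => p k + q k) (by simp) (Finset.mem_univ k)⟩
  obtain ⟨c1, c2⟩ := lim2 (fun k => 2 * (M + 5 - p k - q k)) (fun k t => (1 - t) ^ (2 * q k)) (2 * M)
    (fun t => (1 - t) ^ 2 * (36 - 52 * t + 25 * t ^ 2)) g hg (by fun_prop) (by fun_prop)
    (fun _ _ => e _ _) (by simp) fun x h1 h2 => by
      have := congrArg (x ^ (2 * (M + 5)) * ·) (h x⁻¹ (by positivity) (by simpa using h2.ne))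
      simp only [Finset.mul_sum] at this
      have x0 := h1.ne'
      refine Eq.trans (Finset.sum_congr rfl fun k _ => ?_) (this.trans (by field_simp; ring))
      obtain ⟨j, hj⟩ : ∃ j, M + 5 = j + p k + q k := ⟨M + 5 - p k - q k, by have := hM k; omega⟩
      rw [hj, show j + p k + q k - p k - q k = j by omega, show x⁻¹ - 1 = (1 - x) / x by field_simp, div_pow,
        inv_pow]
      field_simp
      ring
  have := Finset.sum_le_sum (s := Finset.univ) fun k _ => show
      (if 2 * (M + 5 - p k - q k) = 2 * M then g k else 0) ≤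
        (if 2 * p k = 6 then g k else 0) + if 2 * q k = 2 then g k else 0 by
    have := hg k
    have := hM k
    by_cases z : g k = 0
    · simp [z]
    · have := mt (a1 k) z
      have := mt (b1 k) z
      split_ifs <;> first | linarith | omega
  rw [Finset.sum_add_distrib, a2, b2, c2] at this
  norm_num at this

end

def zr (x t : ℝ) : Fin 7 → ℝ := ![0, 0, x, x, 1, 1, t]

def Good (T : ℝ → ℝ → ℝ) : Prop := ∃ (e p q : ℕ) (s : ℝ) (U : ℝ → ℝ → ℝ), (s = 0 ∨ s = 1) ∧
  (∀ t, Continuous (U · t)) ∧ (∀ x t, T x t ^ 2 = x ^ e * (s * U x t)) ∧ (∀ x t, 0 ≤ U x t) ∧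
  ∀ t, U 0 t = t ^ (2 * p) * (t - 1) ^ (2 * q)

theorem good1 (i j : Fin 7) : Good fun x t => zr x t i - zr x t j := by
  have a : Good fun _ _ => 0 := ⟨0, 0, 0, 0, fun _ _ => 1, by simp, by fun_prop, by simp, by simp, by simp⟩
  have b : Good fun x _ => x := ⟨2, 0, 0, 1, fun _ _ => 1, by simp, by fun_prop, by simp, by simp, by simp⟩
  have c : ∀ (p q : ℕ) (T : ℝ → ℝ → ℝ), (∀ t, Continuous (T · t)) →
      (∀ t, T 0 t ^ 2 = t ^ (2 * p) * (t - 1) ^ (2 * q)) → Good T := fun p q T h1 h2 =>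
    ⟨0, p, q, 1, fun x t => T x t ^ 2, by simp, by fun_prop, by simp, fun _ _ => sq_nonneg _, h2⟩
  have n : ∀ T, Good T → Good fun x t => -T x t := fun T h => by simpa [Good] using h
  fin_cases i <;> fin_cases j <;> simp only [zr, Fin.reduceFinMk, Matrix.cons_val, sub_self, sub_zero, zero_sub] <;>
    first
    | exact a | exact b | exact n _ b
    | (refine c 0 0 _ (by fun_prop) fun _ => ?_; ring1) | (refine c 1 0 _ (by fun_prop) fun _ => ?_; ring1)
    | (refine c 0 1 _ (by fun_prop) fun _ => ?_; ring1)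

theorem good (L : List (Fin 7 × Fin 7)) : Good fun x t => (L.map fun p => zr x t p.1 - zr x t p.2).prod := by
  induction L with
  | nil => exact ⟨0, 0, 0, 1, fun _ _ => 1, by simp, by fun_prop, by simp, by simp, by simp⟩
  | cons a L ih =>
    obtain ⟨e, p, q, s, U, h1, h2, h3, h4, h5⟩ := ih
    obtain ⟨e', p', q', s', U', k1, k2, k3, k4, k5⟩ := good1 a.1 a.2
    refine ⟨e + e', p + p', q + q', s * s', fun x t => U x t * U' x t, ?_, by fun_prop, fun x t => ?_,
      fun x t => mul_nonneg (h4 x t) (k4 x t), fun t => ?_⟩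
    · rcases h1 with rfl | rfl <;> simp [k1]
    · simp only [List.map_cons, List.prod_cons, mul_pow, h3, k3]; ring
    · simp only [h5, k5]; ring

def dd {R : Type} [CommRing R] (b c d : R) : R :=
  b ^ 2 * c ^ 2 - 28 * c ^ 3 - 4 * b ^ 3 * d + 126 * b * c * d - 1323 * d ^ 2

def D {R : Type} [CommRing R] (x t : R) : R :=
  64 * (1 - x) ^ 6 * t ^ 2 * (x - t) ^ 2 * (1 - t) ^ 2 *
    dd (5 * x + 5 + 6 * t) (3 * x + 4 * t + 4 * x * t) (2 * x * t)

theorem real {m : ℕ} (c : Fin m → ℝ) (E : Fin m → List (Fin 7 × Fin 7)) (hc : ∀ k, 0 ≤ c k)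
    (h : ∀ x t, x ^ 6 * D x t = ∑ k, c k * ((E k).map fun p => zr x t p.1 - zr x t p.2).prod ^ 2) : False := by
  choose e p q s U h1 h2 h3 h4 h5 using fun k => good (E k)
  have s0 : ∀ k, 0 ≤ c k * s k := fun k => by rcases h1 k with h | h <;> simp [h, hc]
  have H : ∀ t x, ∑ k, x ^ e k * (c k * s k * U k x t) = x ^ 6 * D x t := fun t x => by
    rw [h]; exact Finset.sum_congr rfl fun k _ => by rw [h3]; ring
  have cD : ∀ t, Continuous fun x : ℝ => D x t := fun t => by unfold D dd; fun_prop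
  have z : ∀ k, e k < 6 → c k * s k = 0 := fun k hk => by
    simpa [h5, show (2 : ℝ) - 1 = 1 by norm_num] using lim0 e (fun k x => c k * s k * U k x 2) 6 _
      (fun k => by have := h2 k 2; fun_prop) (cD 2)
      (fun k x => mul_nonneg (s0 k) (h4 k x 2)) (fun x _ _ => H 2 x) k hk
  refine fin (fun k => if e k = 6 then c k * s k / 1024 else 0) p q
    (fun k => by have := s0 k; positivity) fun t _ _ => ?_
  have := lim1 e (fun k x => c k * s k * U k x t) 6 _ (fun k => by have := h2 k t; fun_prop) (cD t)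
    (fun k hk x => by simp only [z k hk, zero_mul]) fun x _ _ => H t x
  rw [show t ^ 6 * (t - 1) ^ 2 * (36 * t ^ 2 - 52 * t + 25) = D 0 t / 1024 by unfold D dd; ring, ← this,
    Finset.sum_div]
  refine Finset.sum_congr rfl fun k _ => ?_
  split_ifs
  · rw [h5]; ring
  · simp

end Pool.Agent.H.MP_8e46bf_ag
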